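import Mathlib
import Pool.Agent.H5.IncDist

namespace Pool.Agent.Results.MP_b5aa09_co.AngleSum

open Pool.Agent.H5.IncDist

theorem result : ∃ (E : Finset (Sym2 (Fin 9))) (I : Finset (Fin 9 × Fin 3)),
    (∀ e ∈ E, ¬ e.IsDiag) ∧
    (∃ (x y : Fin 9 → ℝ) (A C : Fin 3 → ℝ),
      Function.Injective (fun i => (x i, y i)) ∧ Function.Injective A ∧
      Realises I x y A C ∧ IndepAt ∅ I x y A) ∧
    Count E I ∧
    ∀ (x y : Fin 9 → ℝ) (A C : Fin 3 → ℝ), Realises I x y A C → ¬ IndepAt E I x y A :=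
  ⟨E0, I0, by decide, indep, count0, dep⟩

end Pool.Agent.Results.MP_b5aa09_co.AngleSum
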